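import Mathlib

set_option autoImplicit false

namespace Pool.Agent.Lib.MP_1fa985_ag

open Polynomial

/-- Substitution `x₀ ↦ Y`, `x₁ ↦ λ Y`; here `ℂ[X][X]` is `ℂ[λ][Y]`. -/
noncomputable def eta : MvPolynomial (Fin 2) ℂ →ₐ[ℂ] ℂ[X][X] :=
  MvPolynomial.aeval ![(X : ℂ[X][X]), C X * X]

theorem eta_X0 : eta (MvPolynomial.X 0) = X := by simp [eta]

theorem eta_X1 : eta (MvPolynomial.X 1) = C X * X := by simp [eta]

theorem natDegree_coeff_eta (f : MvPolynomial (Fin 2) ℂ) (k : ℕ) :
    ((eta f).coeff k).natDegree ≤ k := by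
  induction f using MvPolynomial.induction_on generalizing k with
  | C a =>
    have : eta (MvPolynomial.C a) = C (C a) := by
      rw [← MvPolynomial.algebraMap_eq, AlgHom.commutes]; rfl
    rw [this, coeff_C]
    split_ifs <;> simp
  | add p q hp hq =>
    rw [map_add, coeff_add]
    exact (natDegree_add_le _ _).trans (max_le (hp k) (hq k))
  | mul_X p i hp =>
    rw [map_mul]
    fin_cases i
    · simp only [Fin.zero_eta, Fin.isValue, eta_X0]
      cases k with
      | zero => simp
      | succ k => rw [coeff_mul_X]; exact (hp k).trans (Nat.le_succ k)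
    · simp only [Fin.mk_one, Fin.isValue, eta_X1]
      rw [← mul_assoc]
      cases k with
      | zero => simp
      | succ k =>
        rw [coeff_mul_X, coeff_mul_C]
        exact natDegree_mul_le.trans (by rw [natDegree_X]; exact Nat.add_le_add_right (hp k) 1)

/-- the left inverse of `eta` in the fraction field. -/
theorem eta_injective : Function.Injective eta := by
  let K := FractionRing (MvPolynomial (Fin 2) ℂ)
  let x0 : K := algebraMap (MvPolynomial (Fin 2) ℂ) K (MvPolynomial.X 0)
  let x1 : K := algebraMap (MvPolynomial (Fin 2) ℂ) K (MvPolynomial.X 1)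
  have hinj : Function.Injective (algebraMap (MvPolynomial (Fin 2) ℂ) K) :=
    IsFractionRing.injective _ _
  have hx0 : x0 ≠ 0 := by
    intro h
    exact MvPolynomial.X_ne_zero (R := ℂ) (0 : Fin 2) (hinj (by rw [map_zero]; exact h))
  let ρ : ℂ[X][X] →+* K := eval₂RingHom ((aeval (x1 / x0) : ℂ[X] →ₐ[ℂ] K) : ℂ[X] →+* K) x0
  have hcomp : ρ.comp (eta : MvPolynomial (Fin 2) ℂ →+* ℂ[X][X])
      = algebraMap (MvPolynomial (Fin 2) ℂ) K := by
    apply MvPolynomial.ringHom_ext
    · intro c
      have : eta (MvPolynomial.C c) = C (C c) := by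
        rw [← MvPolynomial.algebraMap_eq, AlgHom.commutes]; rfl
      simp only [RingHom.comp_apply, RingHom.coe_coe, this]
      simp only [ρ, coe_eval₂RingHom, eval₂_C, RingHom.coe_coe, aeval_C]
      rw [IsScalarTower.algebraMap_apply ℂ (MvPolynomial (Fin 2) ℂ) K, MvPolynomial.algebraMap_eq]
    · intro i
      fin_cases i
      · simp [ρ, eta_X0, x0]
      · simp only [Fin.mk_one, Fin.isValue, RingHom.comp_apply, RingHom.coe_coe, eta_X1]
        simp only [ρ, coe_eval₂RingHom, eval₂_mul, eval₂_C, RingHom.coe_coe, aeval_X, eval₂_X]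
        exact div_mul_cancel₀ _ hx0
  intro a b hab
  apply hinj
  rw [← hcomp]
  simp only [RingHom.comp_apply, RingHom.coe_coe, hab]

end Pool.Agent.Lib.MP_1fa985_ag
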