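import Mathlib
import Pool.Agent.Lib.MP_1fa985_ag.Eta

set_option autoImplicit false

namespace Pool.Agent.Lib.MP_1fa985_ag

open Polynomial

/-- The curve `(x₀ x₁ - 1) ^ 2 = x₁ ^ 4 - x₁ ^ 3`. -/
noncomputable def pp : MvPolynomial (Fin 2) ℂ :=
  (MvPolynomial.X 0 * MvPolynomial.X 1 - 1) ^ 2 - MvPolynomial.X 1 ^ 4 + MvPolynomial.X 1 ^ 3

theorem eta_pp : eta pp = C (X ^ 2 - X ^ 4) * X ^ 4 +
    (C (X ^ 3) * X ^ 3 - C (2 * X) * X ^ 2 + 1) := by
  unfold pp
  rw [map_add, map_sub, map_pow, map_sub, map_mul, map_pow, map_pow, map_one, eta_X0, eta_X1]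
  simp only [map_sub, map_mul, map_pow, map_ofNat]
  ring

theorem leadingCoeff_eta_pp : (eta pp).leadingCoeff = X ^ 2 - X ^ 4 := by
  rw [eta_pp, add_comm, leadingCoeff_add_of_degree_lt]
  · rw [leadingCoeff_mul, leadingCoeff_C, leadingCoeff_X_pow, mul_one]
  · have h1 : (X ^ 2 - X ^ 4 : ℂ[X]) ≠ 0 := by
      intro h
      have := congrArg (fun q => q.coeff 2) h
      simp [coeff_X_pow] at this
    rw [degree_mul, degree_C h1, degree_X_pow, zero_add]
    have h2 : (C (X ^ 3) * X ^ 3 - C (2 * X) * X ^ 2 + 1 : ℂ[X][X]).degree ≤ 3 := by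
      refine (degree_add_le _ _).trans (max_le ?_ (degree_one_le.trans (by norm_num)))
      refine (degree_sub_le _ _).trans (max_le ?_ ?_)
      · exact degree_C_mul_X_pow_le 3 _
      · exact (degree_C_mul_X_pow_le 2 _).trans (by norm_num)
    exact lt_of_le_of_lt h2 (by norm_num)

theorem pp_ne_zero : pp ≠ 0 := by
  intro h
  have h1 := leadingCoeff_eta_pp
  rw [h, map_zero, leadingCoeff_zero] at h1
  have := congrArg (fun q => q.coeff 2) h1
  simp [coeff_X_pow] at this

/-- Smoothness. -/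
theorem smooth_pp (v : Fin 2 → ℂ) (hv : MvPolynomial.eval v pp = 0) :
    MvPolynomial.eval v (MvPolynomial.pderiv 0 pp) ≠ 0 ∨
      MvPolynomial.eval v (MvPolynomial.pderiv 1 pp) ≠ 0 := by
  by_contra hcon
  push Not at hcon
  obtain ⟨h0, h1⟩ := hcon
  have e : (v 0 * v 1 - 1) ^ 2 - v 1 ^ 4 + v 1 ^ 3 = 0 := by
    simpa [pp] using hv
  simp [pp, MvPolynomial.pderiv_X, Derivation.leibniz_pow] at h0 h1
  rcases h0 with h0 | h0
  · rw [h0] at e h1
    have hv1 : v 1 ≠ 0 := by
      intro h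
      rw [h] at h0
      norm_num at h0
    have e' : v 1 ^ 3 * (1 - v 1) = 0 := by linear_combination e
    have h2 : v 1 = 1 := by
      rcases mul_eq_zero.mp e' with h | h
      · exact absurd h (pow_ne_zero 3 hv1)
      · exact (sub_eq_zero.mp h).symm
    rw [h2] at h1
    norm_num at h1
  · rw [h0] at e
    norm_num at e

/-- Square argument: `4 t ^ 5 (t - 1)` is not a square. -/
theorem not_square (h : ℂ[X]) (hh : h ^ 2 = 4 * X ^ 5 * (X - 1)) : False := by
  have h1 := congrArg (eval 1) hh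
  have h2 := congrArg (fun q => (derivative q).eval 1) hh
  simp only [eval_pow, eval_mul, eval_sub, eval_X, eval_one, sub_self, mul_zero] at h1
  have h3 : h.eval 1 = 0 := by
    exact pow_eq_zero_iff (two_ne_zero) |>.mp h1
  simp [derivative_mul, derivative_pow, h3] at h2

theorem quad_coeff {R : Type*} [CommRing R] (a b c : R) :
    (C a * X ^ 2 + C b * X + C c : R[X]).coeff 2 = a ∧
    (C a * X ^ 2 + C b * X + C c : R[X]).coeff 1 = b ∧
    (C a * X ^ 2 + C b * X + C c : R[X]).coeff 0 = c := by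
  refine ⟨?_, ?_, ?_⟩
  · simp [coeff_X, coeff_C]
  · simp
  · simp

/-- the image of `pp` in `ℂ[x₁][x₀]`, irreducibility. -/
theorem irreducible_aux {R : Type*} [CommRing R] [IsDomain R] (t : R) (φ : R →+* ℂ[X])
    (ht : φ t = X) :
    Irreducible ((X * C t - 1) ^ 2 - C t ^ 4 + C t ^ 3 : R[X]) := by
  have ht0 : t ≠ 0 := by
    rintro rfl
    rw [map_zero] at ht
    exact X_ne_zero ht.symm
  set P : R[X] := (X * C t - 1) ^ 2 - C t ^ 4 + C t ^ 3 with hP
  have hP' : P = C (t ^ 2) * X ^ 2 + C (-2 * t) * X + C (1 - t ^ 4 + t ^ 3) := by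
    rw [hP]
    simp only [map_pow, map_mul, map_add, map_sub, map_neg, map_one, map_ofNat]
    ring
  have hdeg : P.natDegree = 2 := by
    rw [hP']
    exact natDegree_quadratic (pow_ne_zero 2 ht0)
  have hP0 : P ≠ 0 := by
    intro h
    rw [h, natDegree_zero] at hdeg
    norm_num at hdeg
  have c2 : P.coeff 2 = t ^ 2 := by
    rw [hP']; exact (quad_coeff _ _ _).1
  have c1 : P.coeff 1 = -2 * t := by
    rw [hP']; exact (quad_coeff _ _ _).2.1
  have c0 : P.coeff 0 = 1 - t ^ 4 + t ^ 3 := by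
    rw [hP']; exact (quad_coeff _ _ _).2.2
  have key : ∀ a b : R[X], P = a * b → a.natDegree = 0 → IsUnit a := by
    intro a b hab ha
    obtain ⟨a0, rfl⟩ := natDegree_eq_zero.mp ha
    have d2 : t ^ 2 = a0 * b.coeff 2 := by rw [← c2, hab, coeff_C_mul]
    have d0 : 1 - t ^ 4 + t ^ 3 = a0 * b.coeff 0 := by rw [← c0, hab, coeff_C_mul]
    apply isUnit_C.mpr
    apply IsUnit.of_mul_eq_one (b.coeff 0 + b.coeff 2 * (t ^ 2 - t))
    linear_combination -d0 - (t ^ 2 - t) * d2
  constructor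
  · intro hu
    rw [isUnit_iff] at hu
    obtain ⟨r, -, hr⟩ := hu
    rw [← hr, natDegree_C] at hdeg
    norm_num at hdeg
  · intro a b hab
    have ha0 : a ≠ 0 := by rintro rfl; rw [zero_mul] at hab; exact hP0 hab
    have hb0 : b ≠ 0 := by rintro rfl; rw [mul_zero] at hab; exact hP0 hab
    have hsum : a.natDegree + b.natDegree = 2 := by
      rw [← natDegree_mul ha0 hb0, ← hab, hdeg]
    have h3 : a.natDegree = 0 ∨ b.natDegree = 0 ∨ (a.natDegree = 1 ∧ b.natDegree = 1) := by omega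
    rcases h3 with h | h | ⟨h, h'⟩
    · exact Or.inl (key a b hab h)
    · exact Or.inr (key b a (by rw [hab, mul_comm]) h)
    · exfalso
      obtain ⟨α, hα, β, rfl⟩ := natDegree_eq_one.mp h
      obtain ⟨γ, hγ, δ, rfl⟩ := natDegree_eq_one.mp h'
      have hexp : (C α * X + C β) * (C γ * X + C δ)
          = C (α * γ) * X ^ 2 + C (α * δ + β * γ) * X + C (β * δ) := by
        simp only [map_mul, map_add]; ring
      rw [hexp] at hab
      have d2 : t ^ 2 = α * γ := by rw [← c2, hab]; exact (quad_coeff _ _ _).1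
      have d1 : -2 * t = α * δ + β * γ := by rw [← c1, hab]; exact (quad_coeff _ _ _).2.1
      have d0 : 1 - t ^ 4 + t ^ 3 = β * δ := by rw [← c0, hab]; exact (quad_coeff _ _ _).2.2
      have hsq : (α * δ - β * γ) ^ 2 = 4 * t ^ 5 * (t - 1) := by
        linear_combination (-(α * δ + β * γ) + 2 * t) * d1 + 4 * β * δ * d2 + 4 * t ^ 2 * d0
      apply not_square (φ (α * δ - β * γ))
      rw [← map_pow, hsq, map_mul, map_mul, map_pow, map_sub, ht, map_one, map_ofNat]

theorem irreducible_pp : Irreducible pp := by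
  let e := MvPolynomial.finSuccEquiv ℂ 1
  rw [← MulEquiv.irreducible_iff e]
  have h0 : e (MvPolynomial.X 0) = X := MvPolynomial.finSuccEquiv_X_zero
  have h1 : e (MvPolynomial.X 1) = C (MvPolynomial.X 0) :=
    MvPolynomial.finSuccEquiv_X_succ (j := (0 : Fin 1))
  have h2 : e pp = (X * C (MvPolynomial.X 0) - 1) ^ 2 - C (MvPolynomial.X 0) ^ 4
      + C (MvPolynomial.X 0) ^ 3 := by
    unfold pp
    rw [map_add, map_sub, map_pow, map_sub, map_mul, map_pow, map_pow, map_one, h0, h1]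
  rw [h2]
  exact irreducible_aux (MvPolynomial.X 0)
    ((MvPolynomial.aeval (fun _ => (X : ℂ[X])) : MvPolynomial (Fin 1) ℂ →ₐ[ℂ] ℂ[X]) :
      MvPolynomial (Fin 1) ℂ →+* ℂ[X]) (by simp)

end Pool.Agent.Lib.MP_1fa985_ag
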