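import Mathlib

set_option autoImplicit false

namespace Pool.Agent.Lib.MP_1fa985_ag

open Polynomial

section

variable {Λ : Type*} [Field Λ] [Algebra ℂ Λ]

/-- Evaluation of a two-variable polynomial at `(g, T)`, `T` the power series variable. -/
noncomputable def ev (g : PowerSeries Λ) : ℂ[X][X] →+* PowerSeries Λ :=
  eval₂RingHom ((aeval g : ℂ[X] →ₐ[ℂ] PowerSeries Λ) : ℂ[X] →+* PowerSeries Λ) PowerSeries.X

theorem ev_X (g : PowerSeries Λ) : ev g X = PowerSeries.X := by simp [ev]

theorem ev_C_X (g : PowerSeries Λ) : ev g (C X) = g := by simp [ev]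

theorem ev_C_C (g : PowerSeries Λ) (c : ℂ) :
    ev g (C (C c)) = algebraMap ℂ (PowerSeries Λ) c := by simp [ev]

theorem constantCoeff_ev (g : PowerSeries Λ) (H : ℂ[X][X]) :
    PowerSeries.constantCoeff (ev g H)
      = aeval (PowerSeries.constantCoeff g) (H.coeff 0) := by
  have : (PowerSeries.constantCoeff (R := Λ)).comp (ev g)
      = ((aeval (PowerSeries.constantCoeff g) : ℂ[X] →ₐ[ℂ] Λ) : ℂ[X] →+* Λ).comp
        (constantCoeff : ℂ[X][X] →+* ℂ[X]) := by
    apply Polynomial.ringHom_ext'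
    · apply Polynomial.ringHom_ext'
      · ext c; simp [ev, PowerSeries.algebraMap_apply]
      · simp [ev]
    · simp [ev]
  exact congrArg (fun φ => φ H) this

theorem exists_factor (H : ℂ[X][X]) (hH : H ≠ 0) :
    ∃ (m : ℕ) (H' : ℂ[X][X]), H = X ^ m * H' ∧ H'.coeff 0 ≠ 0 := by
  obtain ⟨q, hq, hq'⟩ := Polynomial.exists_eq_pow_rootMultiplicity_mul_and_not_dvd H hH 0
  refine ⟨_, q, by rw [C_0, sub_zero] at hq; exact hq, ?_⟩
  intro h
  apply hq'
  rw [C_0, sub_zero]
  exact X_dvd_iff.mpr h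

theorem coe_algebraMap (c : ℂ) :
    ((algebraMap ℂ (PowerSeries Λ) c : PowerSeries Λ) : LaurentSeries Λ)
      = algebraMap ℂ (LaurentSeries Λ) c := by
  rw [HahnSeries.algebraMap_apply']

variable (g : PowerSeries Λ)

theorem constantCoeff_mem_of_mul_eq
    (hg : Transcendental ℂ (PowerSeries.constantCoeff g))
    (h : PowerSeries Λ) (H1 H2 : ℂ[X][X]) (hH2 : H2 ≠ 0) (heq : h * ev g H2 = ev g H1) :
    PowerSeries.constantCoeff h ∈
      IntermediateField.adjoin ℂ {PowerSeries.constantCoeff g} := by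
  set ξ := PowerSeries.constantCoeff g with hξ
  have hinj : ∀ q : ℂ[X], q ≠ 0 → aeval ξ q ≠ 0 := fun q hq hq' =>
    hq ((transcendental_iff.mp hg) q hq')
  obtain ⟨m, H2', hm, hH2'⟩ := exists_factor H2 hH2
  by_cases hH1 : H1 = 0
  · -- then `h = 0`
    have h2 : ev g H2 ≠ 0 := by
      rw [hm, map_mul, map_pow, ev_X]
      apply mul_ne_zero (pow_ne_zero _ PowerSeries.X_ne_zero)
      intro h0
      have := constantCoeff_ev g H2'
      rw [h0, map_zero] at this
      exact hinj _ hH2' this.symm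
    rw [hH1, map_zero] at heq
    rcases mul_eq_zero.mp heq with h0 | h0
    · rw [h0, map_zero]; exact zero_mem _
    · exact absurd h0 h2
  obtain ⟨m1, H1', hm1, hH1'⟩ := exists_factor H1 hH1
  rw [hm, hm1, map_mul, map_mul, map_pow, map_pow, ev_X] at heq
  have hle : m ≤ m1 := by
    by_contra hlt
    push Not at hlt
    obtain ⟨k, rfl⟩ := Nat.exists_eq_add_of_lt hlt
    have h1 : PowerSeries.X ^ m1 * (h * PowerSeries.X ^ (k + 1) * ev g H2')
        = PowerSeries.X ^ m1 * ev g H1' := by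
      rw [← heq]; ring
    have h2 := mul_left_cancel₀ (pow_ne_zero m1 PowerSeries.X_ne_zero) h1
    have h3 := congrArg PowerSeries.constantCoeff h2
    rw [constantCoeff_ev] at h3
    apply hinj _ hH1'
    rw [← h3]
    simp
  obtain ⟨k, rfl⟩ := Nat.exists_eq_add_of_le hle
  have h1 : PowerSeries.X ^ m * (h * ev g H2')
      = PowerSeries.X ^ m * ev g (X ^ k * H1') := by
    rw [map_mul, map_pow, ev_X, ← mul_assoc (PowerSeries.X ^ m) (PowerSeries.X ^ k), ← pow_add,
      ← heq]; ring
  have h2 := mul_left_cancel₀ (pow_ne_zero m PowerSeries.X_ne_zero) h1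
  have h3 := congrArg PowerSeries.constantCoeff h2
  rw [constantCoeff_ev, map_mul, constantCoeff_ev] at h3
  rw [IntermediateField.mem_adjoin_simple_iff]
  refine ⟨(X ^ k * H1').coeff 0, H2'.coeff 0, ?_⟩
  rw [eq_div_iff (hinj _ hH2')]
  exact h3

/-- The Gauss lemma for the residue field: the constant coefficient of a power series in
`ℂ(T, g)` lies in `ℂ(ξ)`, where `ξ` is the (transcendental) constant coefficient of `g`. -/
theorem constantCoeff_mem_adjoin
    (hg : Transcendental ℂ (PowerSeries.constantCoeff g))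
    (h : PowerSeries Λ)
    (hh : (h : LaurentSeries Λ) ∈ IntermediateField.adjoin ℂ
      {((PowerSeries.X : PowerSeries Λ) : LaurentSeries Λ), (g : LaurentSeries Λ)}) :
    PowerSeries.constantCoeff h ∈
      IntermediateField.adjoin ℂ {PowerSeries.constantCoeff g} := by
  have key : ∀ r ∈ Algebra.adjoin ℂ
      {((PowerSeries.X : PowerSeries Λ) : LaurentSeries Λ), (g : LaurentSeries Λ)},
      ∃ H : ℂ[X][X], r = ((ev g H : PowerSeries Λ) : LaurentSeries Λ) := by
    intro r hr
    induction hr using Algebra.adjoin_induction with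
    | mem x hx =>
      rcases hx with rfl | hx
      · exact ⟨X, by rw [ev_X]⟩
      · exact ⟨C X, by rw [ev_C_X]; exact hx⟩
    | algebraMap c =>
      refine ⟨C (C c), ?_⟩
      rw [ev_C_C, coe_algebraMap]
    | add x y _ _ hx hy =>
      obtain ⟨H1, rfl⟩ := hx
      obtain ⟨H2, rfl⟩ := hy
      exact ⟨H1 + H2, by rw [map_add]; simp⟩
    | mul x y _ _ hx hy =>
      obtain ⟨H1, rfl⟩ := hx
      obtain ⟨H2, rfl⟩ := hy
      exact ⟨H1 * H2, by rw [map_mul]; simp⟩
  rw [IntermediateField.mem_adjoin_iff_div] at hh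
  obtain ⟨r, hr, s, hs, hrs⟩ := hh
  obtain ⟨H1, rfl⟩ := key r hr
  obtain ⟨H2, rfl⟩ := key s hs
  have hinj : Function.Injective (HahnSeries.ofPowerSeries ℤ Λ) :=
    HahnSeries.ofPowerSeries_injective
  by_cases hs0 : ((ev g H2 : PowerSeries Λ) : LaurentSeries Λ) = 0
  · rw [hs0, div_zero] at hrs
    have h0 : h = 0 := hinj (by rw [map_zero]; exact hrs)
    rw [h0, map_zero]; exact zero_mem _
  · have hH2 : H2 ≠ 0 := by
      rintro rfl
      apply hs0
      rw [map_zero, map_zero]
    apply constantCoeff_mem_of_mul_eq g hg h H1 H2 hH2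
    apply hinj
    rw [map_mul]
    exact (div_eq_iff hs0).mp hrs.symm |>.symm

end

end Pool.Agent.Lib.MP_1fa985_ag
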