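import Mathlib

set_option autoImplicit false

namespace Pool.Agent.Lib.MP_1fa985_ag

open Polynomial

/-- Homogenization of `B` evaluated at the pair `(P, R)`: `R ^ deg B * B (P / R)`. -/
noncomputable def hom (B P R : ℂ[X]) : ℂ[X] :=
  ((B.map (C : ℂ →+* ℂ[X])).scaleRoots R).eval P

theorem natDegree_map_C (B : ℂ[X]) : (B.map (C : ℂ →+* ℂ[X])).natDegree = B.natDegree :=
  natDegree_map_eq_of_injective C_injective B

theorem map_hom {Λ : Type*} [Field Λ] (j : ℂ[X] →+* Λ) (B P R : ℂ[X]) (lam : Λ)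
    (h : lam * j R = j P) :
    j (hom B P R) = j R ^ B.natDegree * eval₂ (j.comp C) lam B := by
  have h1 := scaleRoots_eval₂_mul (p := B.map (C : ℂ →+* ℂ[X])) j lam R
  rw [natDegree_map_C, eval₂_map, mul_comm (j R) lam, h, eval₂_at_apply] at h1
  exact h1

theorem sub_dvd_hom (B P R : ℂ[X]) (a : ℂ) :
    P - C a * R ∣ hom B P R - R ^ B.natDegree * C (B.eval a) := by
  have h1 := sub_dvd_eval_sub P (C a * R) ((B.map (C : ℂ →+* ℂ[X])).scaleRoots R)
  have h2 := scaleRoots_eval₂_mul (p := B.map (C : ℂ →+* ℂ[X])) (RingHom.id ℂ[X]) (C a) R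
  rw [natDegree_map_C, eval₂_map] at h2
  have h3 : eval₂ ((RingHom.id ℂ[X]).comp C) (C a) B = C (B.eval a) := by
    rw [RingHom.id_comp]
    exact eval₂_at_apply C a
  rw [h3] at h2
  have h4 : eval (C a * R) ((B.map (C : ℂ →+* ℂ[X])).scaleRoots R)
      = R ^ B.natDegree * C (B.eval a) := by
    rw [mul_comm (C a) R]
    simpa using h2
  rw [h4] at h1
  exact h1

theorem hom_mul (A B P R : ℂ[X]) : hom (A * B) P R = hom A P R * hom B P R := by
  unfold hom
  rw [Polynomial.map_mul, mul_scaleRoots_of_noZeroDivisors, eval_mul]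

theorem hom_X_sub_C (a : ℂ) (P R : ℂ[X]) : hom (X - C a) P R = P - C a * R := by
  unfold hom
  rw [Polynomial.map_sub, map_X, map_C, X_sub_C_scaleRoots]
  simp [mul_comm]

theorem hom_pow_X_sub_C (a : ℂ) (m : ℕ) (P R : ℂ[X]) :
    hom ((X - C a) ^ m) P R = (P - C a * R) ^ m := by
  induction m with
  | zero => simp [hom]
  | succ m ih => rw [pow_succ, hom_mul, ih, hom_X_sub_C, pow_succ]

/-- A polynomial over `ℂ` without nonzero roots is a monomial. -/
theorem monomial_of_no_nonzero_root (Q : ℂ[X]) (hQ : Q ≠ 0)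
    (h : ∀ z : ℂ, z ≠ 0 → Q.eval z ≠ 0) : ∃ (c : ℂ) (k : ℕ), c ≠ 0 ∧ Q = C c * X ^ k := by
  obtain ⟨q, hq, hq'⟩ := Polynomial.exists_eq_pow_rootMultiplicity_mul_and_not_dvd Q hQ 0
  have hq0 : ∀ z : ℂ, q.eval z ≠ 0 := by
    intro z hz
    by_cases hz0 : z = 0
    · subst hz0
      apply hq'
      exact dvd_iff_isRoot.mpr hz
    · apply h z hz0
      rw [hq, eval_mul, hz, mul_zero]
  have hdeg : q.degree = 0 := by
    by_contra hne
    obtain ⟨z, hz⟩ := IsAlgClosed.exists_root q hne
    exact hq0 z hz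
  obtain ⟨c, hc⟩ : ∃ c, q = C c := ⟨_, eq_C_of_degree_eq_zero hdeg⟩
  refine ⟨c, rootMultiplicity 0 Q, ?_, ?_⟩
  · rintro rfl
    apply hq0 0
    rw [hc]; simp
  · rw [hc] at hq
    calc Q = (X - C 0) ^ rootMultiplicity 0 Q * C c := hq
      _ = C c * X ^ rootMultiplicity 0 Q := by rw [C_0, sub_zero, mul_comm]

/-- Among three values `0, 1, -1` of a nonconstant rational function `P / R` at least one is
taken at a nonzero complex number. -/
theorem exists_nonzero_root (P R : ℂ[X]) (hR0 : R ≠ 0)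
    (hnc : ∀ a : ℂ, P ≠ C a * R) :
    ∃ a : ℂ, (a = 0 ∨ a = 1 ∨ a = -1) ∧ ∃ z : ℂ, z ≠ 0 ∧ (P - C a * R).eval z = 0 := by
  by_contra hcon
  push Not at hcon
  have key : ∀ a : ℂ, (a = 0 ∨ a = 1 ∨ a = -1) →
      ∃ (c : ℂ) (k : ℕ), c ≠ 0 ∧ P - C a * R = C c * X ^ k := by
    intro a ha
    apply monomial_of_no_nonzero_root
    · rw [sub_ne_zero]; exact hnc a
    · intro z hz
      exact hcon a ha z hz
  obtain ⟨c0, k0, hc0, h0⟩ := key 0 (Or.inl rfl)
  obtain ⟨c1, k1, hc1, h1⟩ := key 1 (Or.inr (Or.inl rfl))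
  obtain ⟨c2, k2, hc2, h2⟩ := key (-1) (Or.inr (Or.inr rfl))
  have h0' : P = C c0 * X ^ k0 := by simpa using h0
  have h1' : P - R = C c1 * X ^ k1 := by simpa using h1
  have h2' : P + R = C c2 * X ^ k2 := by simpa using h2
  have hsum : C c1 * X ^ k1 + C c2 * X ^ k2 = C (2 * c0) * X ^ k0 := by
    rw [← h1', ← h2', map_mul, mul_assoc, ← h0']
    have : (C (2 : ℂ) : ℂ[X]) = 2 := rfl
    rw [this]; ring
  -- compare coefficients
  have hk1 : k1 = k0 := by
    by_contra hne
    have e1 := congrArg (fun q => q.coeff k1) hsum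
    have e0 := congrArg (fun q => q.coeff k0) hsum
    simp only [coeff_add, coeff_C_mul, coeff_X_pow, if_neg hne, if_true, mul_one, mul_zero] at e1 e0
    have hne' : k0 ≠ k1 := fun h => hne h.symm
    simp only [if_neg hne', mul_zero, zero_add] at e0
    by_cases h12 : k1 = k2
    · subst h12
      simp only [if_neg hne', mul_zero] at e0
      exact hc0 (by
        rcases mul_eq_zero.mp e0.symm with h | h
        · norm_num at h
        · exact h)
    · simp only [if_neg h12, mul_zero, add_zero] at e1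
      exact hc1 e1
  subst hk1
  have hR : R = C (c0 - c1) * X ^ k1 := by
    have : R = P - (P - R) := by ring
    rw [this, h1', h0', map_sub]; ring
  have hz : c0 - c1 ≠ 0 := by
    intro hz
    apply hR0
    rw [hR, hz]; simp
  apply hnc (c0 / (c0 - c1))
  rw [h0', hR, ← mul_assoc, ← C_mul, div_mul_cancel₀ _ hz]

theorem rootMult_pow (p : ℂ[X]) (x : ℂ) (n : ℕ) :
    rootMultiplicity x (p ^ n) = n * rootMultiplicity x p := by
  rw [← count_roots, ← count_roots, roots_pow, Multiset.count_nsmul]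

/-- The field `ℂ(λ, w)` with `w ^ n = G(λ)`, where `G` has at least three distinct roots and degree
at most `n`, does not embed into a rational function field `ℂ(ξ)` with `ξ ^ n ∈ ℂ(λ)`. -/
theorem kummer_contra {Λ : Type*} [Field Λ] (j : ℂ[X] →+* Λ) (hj : Function.Injective j)
    (P R : ℂ[X]) (hPR : IsCoprime P R) (hR0 : R ≠ 0) (hnc : ∀ a : ℂ, P ≠ C a * R)
    (lam w : Λ) (hlam : lam * j R = j P) (U V : ℂ[X]) (hV : V ≠ 0) (hw : w * j V = j U)
    (n : ℕ) (B1 B2 : ℂ[X]) (hB : IsCoprime B1 B2)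
    (hB' : j X ^ n * eval₂ (j.comp C) lam B2 = eval₂ (j.comp C) lam B1)
    (G : ℂ[X]) (hG0 : G ≠ 0) (hGn : G.natDegree ≤ n)
    (r0 : G.eval 0 = 0) (r1 : G.eval 1 = 0) (r2 : G.eval (-1) = 0)
    (hwG : w ^ n = eval₂ (j.comp C) lam G) : False := by
  obtain ⟨a, ha, z, hz0, hz⟩ := exists_nonzero_root P R hR0 hnc
  set D : ℂ[X] := P - C a * R with hD
  have hD0 : D ≠ 0 := sub_ne_zero.mpr (hnc a)
  have hRz : R.eval z ≠ 0 := by
    intro hRz
    have hPz : P.eval z = 0 := by
      have : P.eval z - a * R.eval z = 0 := by simpa [hD] using hz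
      rw [hRz, mul_zero, sub_zero] at this
      exact this
    obtain ⟨u, v, huv⟩ := hPR
    have := congrArg (eval z) huv
    simp [hPz, hRz] at this
  have hjR : j R ≠ 0 := by
    intro h
    exact hR0 (hj (by rw [h, map_zero]))
  have hDR : IsCoprime D R := by
    have : D = P + (-C a) * R := by rw [hD]; ring
    rw [this]
    exact hPR.add_mul_right_left (-C a)
  -- first identity
  have id1 : X ^ n * R ^ B1.natDegree * hom B2 P R = R ^ B2.natDegree * hom B1 P R := by
    apply hj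
    rw [map_mul, map_mul, map_mul, map_pow, map_pow, map_pow, map_hom j B2 P R lam hlam,
      map_hom j B1 P R lam hlam, ← hB']
    ring
  have hdvd : D ∣ R ^ (B1.natDegree + B2.natDegree) * (X ^ n * C (B2.eval a) - C (B1.eval a)) := by
    have h1 := sub_dvd_hom B1 P R a
    have h2 := sub_dvd_hom B2 P R a
    have h3 : D ∣ X ^ n * R ^ B1.natDegree * (hom B2 P R - R ^ B2.natDegree * C (B2.eval a))
        - R ^ B2.natDegree * (hom B1 P R - R ^ B1.natDegree * C (B1.eval a)) :=
      dvd_sub (Dvd.dvd.mul_left h2 _) (Dvd.dvd.mul_left h1 _)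
    have h4 : X ^ n * R ^ B1.natDegree * (hom B2 P R - R ^ B2.natDegree * C (B2.eval a))
        - R ^ B2.natDegree * (hom B1 P R - R ^ B1.natDegree * C (B1.eval a))
        = - (R ^ (B1.natDegree + B2.natDegree) *
          (X ^ n * C (B2.eval a) - C (B1.eval a))) := by
      rw [mul_sub, id1, pow_add]; ring
    rw [h4, dvd_neg] at h3
    exact h3
  have hdvd2 : D ∣ X ^ n * C (B2.eval a) - C (B1.eval a) :=
    (IsCoprime.pow_right hDR).dvd_of_dvd_mul_left hdvd
  obtain ⟨E, hE⟩ := hdvd2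
  have hb : z ^ n * B2.eval a = B1.eval a := by
    have := congrArg (eval z) hE
    rw [eval_mul, hz, zero_mul] at this
    simp only [eval_sub, eval_mul, eval_pow, eval_X, eval_C] at this
    exact sub_eq_zero.mp this
  have hb2 : B2.eval a ≠ 0 := by
    intro h
    rw [h, mul_zero] at hb
    obtain ⟨u, v, huv⟩ := hB
    have := congrArg (eval a) huv
    simp [h, ← hb] at this
  have hn : n ≠ 0 := by
    rintro rfl
    have : G.natDegree = 0 := Nat.le_zero.mp hGn
    rw [natDegree_eq_zero] at this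
    obtain ⟨c, rfl⟩ := this
    simp only [eval_C] at r0
    apply hG0
    rw [r0, C_0]
  -- `z` is a simple root of `D`
  have hDz : rootMultiplicity z D = 1 := by
    apply le_antisymm
    · by_contra hcon
      push Not at hcon
      have h2 : (X - C z) ^ 2 ∣ D := (le_rootMultiplicity_iff hD0).mp hcon
      obtain ⟨T, hT⟩ := h2
      rw [hT] at hE
      have := congrArg (fun q => (derivative q).eval z) hE
      simp [derivative_mul, derivative_pow, hn, hz0] at this
      exact hb2 this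
    · exact (rootMultiplicity_pos hD0).mpr hz
  -- second identity
  have id2 : U ^ n * R ^ G.natDegree = V ^ n * hom G P R := by
    apply hj
    rw [map_mul, map_mul, map_pow, map_pow, map_pow, map_hom j G P R lam hlam, ← hwG, ← hw]
    ring
  obtain ⟨G1, hG1, hG1'⟩ := Polynomial.exists_eq_pow_rootMultiplicity_mul_and_not_dvd G hG0 a
  set m := rootMultiplicity a G with hm
  have hG1a : G1.eval a ≠ 0 := by
    intro h
    exact hG1' (dvd_iff_isRoot.mpr h)
  have hG10 : G1 ≠ 0 := by
    rintro rfl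
    simp at hG1a
  have hhom1 : (hom G1 P R).eval z ≠ 0 := by
    obtain ⟨T, hT⟩ := sub_dvd_hom G1 P R a
    have := congrArg (eval z) hT
    rw [eval_mul, ← hD, hz, zero_mul, eval_sub, sub_eq_zero] at this
    rw [this]
    simp only [eval_mul, eval_pow, eval_C]
    exact mul_ne_zero (pow_ne_zero _ hRz) hG1a
  have hhomG : hom G P R = D ^ m * hom G1 P R := by
    conv_lhs => rw [hG1]
    rw [hom_mul, hom_pow_X_sub_C]
  have hhom10 : hom G1 P R ≠ 0 := by
    intro h
    rw [h] at hhom1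
    simp at hhom1
  have hV' : V ^ n ≠ 0 := pow_ne_zero _ hV
  have hDm : D ^ m ≠ 0 := pow_ne_zero _ hD0
  rw [hhomG] at id2
  have hRp : R ^ G.natDegree ≠ 0 := pow_ne_zero _ hR0
  have hUn : U ^ n ≠ 0 := by
    intro h
    rw [h, zero_mul] at id2
    exact mul_ne_zero hV' (mul_ne_zero hDm hhom10) id2.symm
  have hmul := congrArg (rootMultiplicity z) id2
  rw [rootMultiplicity_mul (mul_ne_zero hUn hRp),
    rootMultiplicity_mul (mul_ne_zero hV' (mul_ne_zero hDm hhom10)),
    rootMultiplicity_mul (mul_ne_zero hDm hhom10)] at hmul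
  have hU0 : U ≠ 0 := fun h => hUn (by rw [h, zero_pow hn])
  rw [rootMultiplicity_eq_zero (p := R ^ G.natDegree) (x := z)
      (by simp [IsRoot, hRz]), rootMultiplicity_eq_zero (p := hom G1 P R) (x := z) hhom1] at hmul
  simp only [rootMult_pow, hDz] at hmul
  have hndvd : n ∣ m := by
    have h1 : n * rootMultiplicity z U = n * rootMultiplicity z V + m := by omega
    exact (Nat.dvd_add_right (Dvd.intro _ rfl)).mp (h1 ▸ Dvd.intro _ rfl)
  have hra : G.eval a = 0 := by
    rcases ha with rfl | rfl | rfl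
    · exact r0
    · exact r1
    · exact r2
  have hmpos : 0 < m := (rootMultiplicity_pos hG0).mpr hra
  obtain ⟨b, hba, hb0⟩ : ∃ b : ℂ, b ≠ a ∧ G.eval b = 0 := by
    rcases ha with rfl | rfl | rfl
    · exact ⟨1, one_ne_zero, r1⟩
    · exact ⟨0, zero_ne_one, r0⟩
    · exact ⟨0, by norm_num, r0⟩
  have hG1b : G1.eval b = 0 := by
    rw [hG1, eval_mul, eval_pow, eval_sub, eval_X, eval_C] at hb0
    rcases mul_eq_zero.mp hb0 with h | h
    · exact absurd h (pow_ne_zero _ (sub_ne_zero.mpr hba))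
    · exact h
  have hG1deg : 0 < G1.natDegree := by
    by_contra hcon
    have hcon : G1.natDegree = 0 := by omega
    rw [natDegree_eq_zero] at hcon
    obtain ⟨c, rfl⟩ := hcon
    simp only [eval_C] at hG1b
    apply hG10
    rw [hG1b, C_0]
  have hGdeg : G.natDegree = m + G1.natDegree := by
    conv_lhs => rw [hG1]
    rw [natDegree_mul (pow_ne_zero _ (X_sub_C_ne_zero a)) hG10, natDegree_pow, natDegree_X_sub_C,
      mul_one]
  have hle := Nat.le_of_dvd hmpos hndvd
  omega

end Pool.Agent.Lib.MP_1fa985_ag
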