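import Mathlib

set_option autoImplicit false

namespace Pool.Agent.Lib.MP_1fa985_ag

open Polynomial

/-- For a polynomial `h` over a field of characteristic zero, the equation
`X ^ n * h (z / X) = lead (h)` has a power series solution `z` with constant term `1`. -/
theorem exists_hensel {F : Type*} [Field F] [CharZero F] (h : F[X]) (hn : 0 < h.natDegree) :
    ∃ z : PowerSeries F, PowerSeries.constantCoeff z = 1 ∧
      ((h.map (PowerSeries.C (R := F))).scaleRoots PowerSeries.X).eval z
        = PowerSeries.C h.leadingCoeff := by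
  set a := h.leadingCoeff with ha
  have h0 : h ≠ 0 := by
    rintro rfl
    simp at hn
  have ha0 : a ≠ 0 := leadingCoeff_ne_zero.mpr h0
  have hCinj : Function.Injective (PowerSeries.C (R := F)) := PowerSeries.C_injective
  set Q : (PowerSeries F)[X] := (h.map (PowerSeries.C (R := F))).scaleRoots PowerSeries.X with hQ
  have hQdeg : Q.natDegree = h.natDegree := by
    rw [hQ, natDegree_scaleRoots, natDegree_map_eq_of_injective hCinj]
  have hQlc : Q.leadingCoeff = PowerSeries.C a := by
    rw [hQ, leadingCoeff_scaleRoots, leadingCoeff_map_of_injective hCinj]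
  set Φ : (PowerSeries F)[X] := C (PowerSeries.C a⁻¹) * Q - 1 with hΦ
  have hu : (C (PowerSeries.C a⁻¹) * Q).Monic := by
    apply monic_C_mul_of_mul_leadingCoeff_eq_one
    rw [hQlc, ← map_mul, inv_mul_cancel₀ ha0, map_one]
  have hdeg : (C (PowerSeries.C a⁻¹) * Q).natDegree = h.natDegree := by
    rw [natDegree_C_mul_of_mul_ne_zero, hQdeg]
    rw [hQlc, ← map_mul, inv_mul_cancel₀ ha0, map_one]
    exact one_ne_zero
  have hmonic : Φ.Monic := by
    apply Monic.sub_of_left hu
    rw [degree_one]
    apply natDegree_pos_iff_degree_pos.mp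
    rw [hdeg]
    exact hn
  have hmap : Φ.map (PowerSeries.constantCoeff (R := F)) = X ^ h.natDegree - 1 := by
    rw [hΦ, Polynomial.map_sub, Polynomial.map_mul, map_C, hQ, map_scaleRoots, Polynomial.map_map]
    · have : (PowerSeries.constantCoeff (R := F)).comp PowerSeries.C = RingHom.id F := by
        ext c; simp
      rw [this, Polynomial.map_id, PowerSeries.constantCoeff_X, scaleRoots_zero, ← ha]
      simp only [PowerSeries.constantCoeff_C, Polynomial.map_one]
      rw [smul_eq_C_mul, ← mul_assoc, ← C_mul, inv_mul_cancel₀ ha0, C_1, one_mul]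
    · rw [leadingCoeff_map_of_injective hCinj, PowerSeries.constantCoeff_C]
      exact ha0
  have hev : ∀ (q : (PowerSeries F)[X]) (x : PowerSeries F),
      PowerSeries.constantCoeff (q.eval x)
        = (q.map (PowerSeries.constantCoeff (R := F))).eval (PowerSeries.constantCoeff x) := by
    intro q x
    rw [eval_map, ← eval₂_at_apply]
  have hmem : Φ.eval 1 ∈ Ideal.span {(PowerSeries.X : PowerSeries F)} := by
    rw [Ideal.mem_span_singleton, PowerSeries.X_dvd_iff, hev, hmap]
    simp
  have hunit : IsUnit (Ideal.Quotient.mk (Ideal.span {(PowerSeries.X : PowerSeries F)})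
      (Φ.derivative.eval 1)) := by
    apply IsUnit.map
    rw [PowerSeries.isUnit_iff_constantCoeff, hev, ← derivative_map, hmap]
    simp [derivative_pow]
    omega
  obtain ⟨z, hz, hz'⟩ := HenselianRing.is_henselian (I := Ideal.span {(PowerSeries.X : PowerSeries F)})
    Φ hmonic 1 hmem hunit
  refine ⟨z, ?_, ?_⟩
  · rw [Ideal.mem_span_singleton, PowerSeries.X_dvd_iff, map_sub, map_one, sub_eq_zero] at hz'
    exact hz'
  · have h1 : PowerSeries.C a⁻¹ * Q.eval z = 1 := by
      have : Φ.eval z = 0 := hz
      rw [hΦ, eval_sub, eval_mul, eval_C, eval_one, sub_eq_zero] at this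
      exact this
    calc Q.eval z = PowerSeries.C a * (PowerSeries.C a⁻¹ * Q.eval z) := by
          rw [← mul_assoc, ← map_mul, mul_inv_cancel₀ ha0, map_one, one_mul]
      _ = PowerSeries.C a := by rw [h1, mul_one]

end Pool.Agent.Lib.MP_1fa985_ag
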