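import Mathlib

set_option autoImplicit false

namespace Pool.Agent.Lib.MP_1fa985_ag

open Polynomial

section

variable {F Λ : Type*} [Field F] [Field Λ] (φ : F →+* Λ) (w : Λ)

/-- The map `F⟦S⟧ → Λ⟦T⟧`, `S ↦ w T`. -/
noncomputable def theta : PowerSeries F →+* PowerSeries Λ :=
  (PowerSeries.rescale w).comp (PowerSeries.map φ)

theorem coeff_theta (A : PowerSeries F) (j : ℕ) :
    PowerSeries.coeff j (theta φ w A) = w ^ j * φ (PowerSeries.coeff j A) := by
  simp [theta, PowerSeries.coeff_rescale]

theorem constantCoeff_theta (A : PowerSeries F) :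
    PowerSeries.constantCoeff (theta φ w A) = φ (PowerSeries.constantCoeff A) := by
  rw [← PowerSeries.coeff_zero_eq_constantCoeff_apply, coeff_theta]
  simp

theorem theta_injective (hw : w ≠ 0) : Function.Injective (theta φ w) := by
  rw [injective_iff_map_eq_zero]
  intro A hA
  ext j
  have := congrArg (PowerSeries.coeff j) hA
  rw [coeff_theta, map_zero] at this
  rcases mul_eq_zero.mp this with h | h
  · exact absurd h (pow_ne_zero _ hw)
  · rw [map_zero]
    exact (map_eq_zero _).mp h

theorem theta_X : theta φ w PowerSeries.X = PowerSeries.C w * PowerSeries.X := by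
  ext j
  rw [coeff_theta, PowerSeries.coeff_X, PowerSeries.coeff_C_mul, PowerSeries.coeff_X]
  split_ifs with h
  · subst h; simp
  · simp

theorem theta_C (c : F) : theta φ w (PowerSeries.C c) = PowerSeries.C (φ c) := by
  ext j
  rw [coeff_theta, PowerSeries.coeff_C, PowerSeries.coeff_C]
  split_ifs with h
  · subst h; simp
  · simp

/-- The composite `F⟦S⟧ → Λ⟦T⟧ → Λ((T))`. -/
noncomputable def thetaL : PowerSeries F →+* LaurentSeries Λ :=
  (HahnSeries.ofPowerSeries ℤ Λ).comp (theta φ w)

theorem thetaL_injective (hw : w ≠ 0) : Function.Injective (thetaL φ w) := by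
  intro a b hab
  exact theta_injective φ w hw (HahnSeries.ofPowerSeries_injective hab)

/-- The extension to Laurent series. -/
noncomputable def Theta (hw : w ≠ 0) : LaurentSeries F →+* LaurentSeries Λ :=
  IsFractionRing.lift (A := PowerSeries F) (K := LaurentSeries F) (thetaL_injective φ w hw)

theorem Theta_coe (hw : w ≠ 0) (A : PowerSeries F) :
    Theta φ w hw (A : LaurentSeries F) = ((theta φ w A : PowerSeries Λ) : LaurentSeries Λ) :=
  IsFractionRing.lift_algebraMap (A := PowerSeries F) (K := LaurentSeries F)
    (thetaL_injective φ w hw) A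

end

/-- Every Laurent series is a power series divided by a power of the variable. -/
theorem exists_pow_mul {R : Type*} [Field R] (a : LaurentSeries R) :
    ∃ (k : ℕ) (A : PowerSeries R),
      a * ((PowerSeries.X : PowerSeries R) : LaurentSeries R) ^ k = (A : LaurentSeries R) := by
  obtain ⟨⟨A, ⟨_, k, rfl⟩⟩, hA⟩ :=
    IsLocalization.surj (Submonoid.powers (PowerSeries.X : PowerSeries R)) a
  refine ⟨k, A, ?_⟩
  rw [← map_pow]
  exact hA

end Pool.Agent.Lib.MP_1fa985_ag
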