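import Mathlib
import Pool.Agent.Lib.MP_1fa985_ag.Hensel
import Pool.Agent.Lib.MP_1fa985_ag.Eta
import Pool.Agent.Lib.MP_1fa985_ag.Laurent

set_option autoImplicit false

namespace Pool.Agent.Lib.MP_1fa985_ag

open Polynomial

/-- power series coerced to Laurent series, as a ring hom. -/
noncomputable abbrev cc (F : Type*) [Field F] : PowerSeries F →+* LaurentSeries F :=
  HahnSeries.ofPowerSeries ℤ F

section

variable {F : Type*} [Field F] (c : ℂ[X] →+* F) (z : PowerSeries F)

/-- The Laurent variable. -/
noncomputable abbrev TT (F : Type*) [Field F] : LaurentSeries F := cc F PowerSeries.X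

theorem cc_injective : Function.Injective (cc F) := HahnSeries.ofPowerSeries_injective

theorem TT_ne_zero : TT F ≠ 0 := by
  intro h
  have : (PowerSeries.X : PowerSeries F) = 0 :=
    cc_injective (by rw [map_zero]; exact h)
  exact PowerSeries.X_ne_zero this

/-- Substitution `λ ↦ c λ`, `Y ↦ z / S`. -/
noncomputable def ups : ℂ[X][X] →+* LaurentSeries F :=
  eval₂RingHom ((cc F).comp ((PowerSeries.C (R := F)).comp c)) (cc F z / TT F)

theorem ups_X : ups c z X = cc F z / TT F := by simp [ups]

theorem ups_C (q : ℂ[X]) : ups c z (C q) = cc F (PowerSeries.C (c q)) := by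
  simp [ups]

theorem pow_mul_ups (H : ℂ[X][X]) (hc : Function.Injective c) :
    TT F ^ H.natDegree * ups c z H
      = cc F ((((H.map c).map (PowerSeries.C (R := F))).scaleRoots PowerSeries.X).eval z) := by
  have h1 := scaleRoots_eval₂_mul (p := (H.map c).map (PowerSeries.C (R := F))) (cc F)
    (cc F z / TT F) PowerSeries.X
  have h2 : cc F PowerSeries.X * (cc F z / TT F) = cc F z := mul_div_cancel₀ _ TT_ne_zero
  rw [h2, eval₂_at_apply] at h1
  rw [h1, natDegree_map_eq_of_injective PowerSeries.C_injective,
    natDegree_map_eq_of_injective hc, eval₂_map, eval₂_map]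
  rfl

theorem ups_injective (hc : Function.Injective c) (hz : PowerSeries.constantCoeff z = 1) :
    Function.Injective (ups c z) := by
  rw [injective_iff_map_eq_zero]
  intro H hH
  by_contra hH0
  have h1 := pow_mul_ups c z H hc
  rw [hH, mul_zero] at h1
  have h2 : (((H.map c).map (PowerSeries.C (R := F))).scaleRoots PowerSeries.X).eval z = 0 :=
    cc_injective (by rw [map_zero]; exact h1.symm)
  have h3 := congrArg (PowerSeries.constantCoeff (R := F)) h2
  have hlc : c H.leadingCoeff ≠ 0 := by
    rw [Ne, map_eq_zero_iff c hc]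
    exact leadingCoeff_ne_zero.mpr hH0
  have hCinj : Function.Injective (PowerSeries.C (R := F)) := PowerSeries.C_injective
  have hlc2 : ((H.map c).map (PowerSeries.C (R := F))).leadingCoeff
      = PowerSeries.C (c H.leadingCoeff) := by
    rw [leadingCoeff_map_of_injective hCinj, leadingCoeff_map_of_injective hc]
  rw [map_zero, ← eval₂_at_apply, hz, ← eval_map, map_scaleRoots, PowerSeries.constantCoeff_X,
    scaleRoots_zero] at h3
  · rw [Polynomial.map_map] at h3
    have : (PowerSeries.constantCoeff (R := F)).comp PowerSeries.C = RingHom.id F := by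
      ext c; simp
    rw [this, Polynomial.map_id, leadingCoeff_map_of_injective hc] at h3
    rw [smul_eq_C_mul, eval_mul, eval_C, eval_pow, eval_X, one_pow, mul_one] at h3
    exact hlc h3
  · rw [hlc2, PowerSeries.constantCoeff_C]
    exact hlc

end

end Pool.Agent.Lib.MP_1fa985_ag
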