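import Mathlib
import Pool.Agent.Lib.MP_1fa985_ag.Kummer
import Pool.Agent.Lib.MP_1fa985_ag.Gauss
import Pool.Agent.Lib.MP_1fa985_ag.Upsilon

set_option autoImplicit false

namespace Pool.Agent.Lib.MP_1fa985_ag

open Polynomial

theorem eta_C (r : ℂ) : eta (MvPolynomial.C r) = C (C r) := by
  rw [← MvPolynomial.algebraMap_eq, AlgHom.commutes]; rfl

theorem cc_C_algebraMap {Λ : Type*} [Field Λ] [Algebra ℂ Λ] (r : ℂ) :
    cc Λ (PowerSeries.C (algebraMap ℂ Λ r)) = algebraMap ℂ (LaurentSeries Λ) r := by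
  rw [← coe_algebraMap, PowerSeries.algebraMap_apply]

theorem exists_lift {A K L : Type*} [CommRing A] [IsDomain A] [Field K] [Algebra A K]
    [IsFractionRing A K] [Field L] (g : A →+* L) (hg : Function.Injective g) :
    ∃ ψ : K →+* L, ∀ q : A, ψ (algebraMap A K q) = g q :=
  ⟨IsFractionRing.lift hg, fun q => IsFractionRing.lift_algebraMap hg q⟩

theorem Theta_cc {F Λ : Type*} [Field F] [Field Λ] (φ : F →+* Λ) (w : Λ) (hw : w ≠ 0)
    (A : PowerSeries F) : Theta φ w hw (cc F A) = cc Λ (theta φ w A) :=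
  Theta_coe φ w hw A

theorem exists_pow_mul_cc {F : Type*} [Field F] (a : LaurentSeries F) :
    ∃ (k : ℕ) (A : PowerSeries F), a * TT F ^ k = cc F A :=
  exists_pow_mul a

section

variable {K : Type*} [Field K] [Algebra (MvPolynomial (Fin 2) ℂ) K]
    [IsFractionRing (MvPolynomial (Fin 2) ℂ) K] [Algebra ℂ K]
    [IsScalarTower ℂ (MvPolynomial (Fin 2) ℂ) K]
    {Λ : Type*} [Field Λ] [Algebra ℂ Λ] [Algebra (RatFunc ℂ) Λ]
    [IsScalarTower ℂ (RatFunc ℂ) Λ]

/-- The data produced by the expansion at infinity. -/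
theorem exists_psi (f : MvPolynomial (Fin 2) ℂ) (hf : f ≠ 0) (hn : 0 < (eta f).natDegree)
    (w : Λ) (hw : w ^ (eta f).natDegree
      = algebraMap (RatFunc ℂ) Λ (algebraMap ℂ[X] (RatFunc ℂ) (eta f).leadingCoeff)) :
    ∃ ψ : K →+* LaurentSeries Λ,
      (∀ r : ℂ, ψ (algebraMap ℂ K r) = algebraMap ℂ (LaurentSeries Λ) r) ∧
      ψ (algebraMap (MvPolynomial (Fin 2) ℂ) K f) * TT Λ ^ (eta f).natDegree = 1 ∧
      (∃ y : PowerSeries Λ, PowerSeries.constantCoeff y = w⁻¹ ∧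
        TT Λ * ψ (algebraMap (MvPolynomial (Fin 2) ℂ) K (MvPolynomial.X 0)) = cc Λ y) ∧
      (ψ (algebraMap (MvPolynomial (Fin 2) ℂ) K (MvPolynomial.X 1)) =
        cc Λ (PowerSeries.C (algebraMap (RatFunc ℂ) Λ RatFunc.X)) *
          ψ (algebraMap (MvPolynomial (Fin 2) ℂ) K (MvPolynomial.X 0))) ∧
      (∀ g : K, ∃ (k : ℕ) (A : PowerSeries (RatFunc ℂ)) (B : PowerSeries Λ),
        ψ g * TT Λ ^ k = cc Λ B ∧
        ∀ j : ℕ, PowerSeries.coeff j B * w ^ k
          = w ^ j * algebraMap (RatFunc ℂ) Λ (PowerSeries.coeff j A)) := by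
  set H := eta f with hH
  have hH0 : H ≠ 0 := by
    intro h
    exact hf (eta_injective (by rw [map_zero]; exact h))
  have hG0 : H.leadingCoeff ≠ 0 := leadingCoeff_ne_zero.mpr hH0
  set c : ℂ[X] →+* RatFunc ℂ := algebraMap ℂ[X] (RatFunc ℂ) with hc
  have hcinj : Function.Injective c := IsFractionRing.injective _ _
  have ha0 : c H.leadingCoeff ≠ 0 := by
    rw [Ne, map_eq_zero_iff c hcinj]; exact hG0
  have hw0 : w ≠ 0 := by
    rintro rfl
    rw [zero_pow hn.ne'] at hw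
    exact ha0 ((map_eq_zero _).mp hw.symm)
  obtain ⟨z, hz1, hz2⟩ := exists_hensel (H.map c)
    (by rw [natDegree_map_eq_of_injective hcinj]; exact hn)
  have hspec : TT (RatFunc ℂ) ^ H.natDegree * ups c z H
      = cc (RatFunc ℂ) (PowerSeries.C (c H.leadingCoeff)) := by
    rw [pow_mul_ups c z H hcinj, hz2, leadingCoeff_map_of_injective hcinj]
  have hψ0inj : Function.Injective
      ((ups c z).comp (eta : MvPolynomial (Fin 2) ℂ →+* ℂ[X][X])) := by
    intro a b hab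
    exact eta_injective (ups_injective c z hcinj hz1 hab)
  obtain ⟨ψ1, hψ1⟩ := exists_lift (K := K)
    ((ups c z).comp (eta : MvPolynomial (Fin 2) ℂ →+* ℂ[X][X])) hψ0inj
  have hψ1' : ∀ q : MvPolynomial (Fin 2) ℂ,
      ψ1 (algebraMap (MvPolynomial (Fin 2) ℂ) K q) = ups c z (eta q) := hψ1
  set φ : RatFunc ℂ →+* Λ := algebraMap (RatFunc ℂ) Λ with hφ
  have hTT : Theta φ w hw0 (TT (RatFunc ℂ)) = cc Λ (PowerSeries.C w) * TT Λ := by
    rw [Theta_cc, theta_X, map_mul]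
  have hccw : cc Λ (PowerSeries.C w) ≠ 0 := by
    intro h
    have h1 : PowerSeries.C w = 0 := cc_injective (by rw [map_zero]; exact h)
    exact hw0 (PowerSeries.C_injective (by rw [h1, map_zero]))
  have hwinv : cc Λ (PowerSeries.C w⁻¹) * cc Λ (PowerSeries.C w) = 1 := by
    rw [← map_mul, ← map_mul, inv_mul_cancel₀ hw0, map_one, map_one]
  have hTT0 : TT Λ ≠ 0 := TT_ne_zero
  refine ⟨(Theta φ w hw0).comp ψ1, ?_, ?_, ?_, ?_, ?_⟩
  · intro r
    rw [RingHom.comp_apply, IsScalarTower.algebraMap_apply ℂ (MvPolynomial (Fin 2) ℂ) K, hψ1',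
      MvPolynomial.algebraMap_eq, eta_C, ups_C, Theta_cc, theta_C, ← cc_C_algebraMap,
      IsScalarTower.algebraMap_apply ℂ (RatFunc ℂ) Λ]
    rfl
  · rw [RingHom.comp_apply, hψ1', ← hH]
    have h1 := congrArg (Theta φ w hw0) hspec
    rw [map_mul, map_pow, hTT, Theta_cc, theta_C, ← hw, map_pow, map_pow, mul_pow] at h1
    have h2 : cc Λ (PowerSeries.C w) ^ H.natDegree *
        (Theta φ w hw0 (ups c z H) * TT Λ ^ H.natDegree)
        = cc Λ (PowerSeries.C w) ^ H.natDegree * 1 := by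
      calc cc Λ (PowerSeries.C w) ^ H.natDegree *
            (Theta φ w hw0 (ups c z H) * TT Λ ^ H.natDegree)
          = cc Λ (PowerSeries.C w) ^ H.natDegree * TT Λ ^ H.natDegree *
            Theta φ w hw0 (ups c z H) := by ring
        _ = cc Λ (PowerSeries.C w) ^ H.natDegree * 1 := by rw [h1, mul_one]
    exact mul_left_cancel₀ (pow_ne_zero _ hccw) h2
  · refine ⟨PowerSeries.C w⁻¹ * theta φ w z, ?_, ?_⟩
    · rw [map_mul, constantCoeff_theta, hz1, map_one, mul_one, PowerSeries.constantCoeff_C]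
    · rw [RingHom.comp_apply, hψ1', eta_X0, ups_X, map_div₀, hTT, Theta_cc, map_mul]
      rw [← mul_div_assoc, div_eq_iff (mul_ne_zero hccw hTT0)]
      calc TT Λ * cc Λ (theta φ w z)
          = (cc Λ (PowerSeries.C w⁻¹) * cc Λ (PowerSeries.C w)) *
              (TT Λ * cc Λ (theta φ w z)) := by rw [hwinv, one_mul]
        _ = _ := by ring
  · rw [RingHom.comp_apply, RingHom.comp_apply, hψ1', hψ1', eta_X0, eta_X1, map_mul, map_mul,
      ups_C, Theta_cc, theta_C]
    rfl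
  · intro g
    obtain ⟨k, A, hA⟩ := exists_pow_mul_cc (ψ1 g)
    refine ⟨k, A, PowerSeries.C (w⁻¹ ^ k) * theta φ w A, ?_, ?_⟩
    · rw [RingHom.comp_apply]
      have h1 := congrArg (Theta φ w hw0) hA
      rw [map_mul, map_pow, hTT, Theta_cc] at h1
      rw [map_mul, ← h1, map_pow, map_pow]
      calc Theta φ w hw0 (ψ1 g) * TT Λ ^ k
          = (cc Λ (PowerSeries.C w⁻¹) * cc Λ (PowerSeries.C w)) ^ k *
              (Theta φ w hw0 (ψ1 g) * TT Λ ^ k) := by rw [hwinv, one_pow, one_mul]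
        _ = _ := by ring
    · intro j
      rw [PowerSeries.coeff_C_mul, coeff_theta, inv_pow]
      field_simp

end

end Pool.Agent.Lib.MP_1fa985_ag
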