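import Mathlib
import Pool.Agent.Lib.MP_1fa985_ag.FieldGen

set_option autoImplicit false

namespace Pool.Agent.Lib.MP_1fa985_ag

open Polynomial

section

variable {K : Type*} [Field K] [Algebra ℂ K] {Λ : Type*} [Field Λ] [Algebra ℂ Λ]

/-- The preimage under a ring hom compatible with `ℂ` of an intermediate field. -/
noncomputable def comapField (ψ : K →+* LaurentSeries Λ)
    (hψ : ∀ r : ℂ, ψ (algebraMap ℂ K r) = algebraMap ℂ (LaurentSeries Λ) r)
    (M : Subfield (LaurentSeries Λ)) (hM : ∀ r : ℂ, algebraMap ℂ (LaurentSeries Λ) r ∈ M) :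
    IntermediateField ℂ K :=
  { M.comap ψ with
    algebraMap_mem' := fun r => by
      show ψ (algebraMap ℂ K r) ∈ M
      rw [hψ]; exact hM r }

theorem mem_of_top (ψ : K →+* LaurentSeries Λ)
    (hψ : ∀ r : ℂ, ψ (algebraMap ℂ K r) = algebraMap ℂ (LaurentSeries Λ) r)
    (M : Subfield (LaurentSeries Λ)) (hM : ∀ r : ℂ, algebraMap ℂ (LaurentSeries Λ) r ∈ M)
    (f g : K) (htop : IntermediateField.adjoin ℂ {f, g} = ⊤) (hf : ψ f ∈ M) (hg : ψ g ∈ M)
    (x : K) : ψ x ∈ M := by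
  have h1 : IntermediateField.adjoin ℂ {f, g} ≤ comapField ψ hψ M hM := by
    rw [IntermediateField.adjoin_le_iff]
    rintro y (rfl | rfl)
    · exact hf
    · exact hg
  have h2 : x ∈ comapField ψ hψ M hM := h1 (by rw [htop]; trivial)
  exact h2

/-- If all coefficients of `B` are complex numbers, then `B` is in the image of `ℂ((T))`. -/
theorem mem_range_of_coeff (B : PowerSeries Λ)
    (hB : ∀ j, PowerSeries.coeff j B ∈ Set.range (algebraMap ℂ Λ)) :
    ∃ B' : PowerSeries ℂ, PowerSeries.map (algebraMap ℂ Λ) B' = B := by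
  choose b hb using hB
  refine ⟨PowerSeries.mk b, ?_⟩
  ext j
  rw [PowerSeries.coeff_map, PowerSeries.coeff_mk, hb]

/-- First case: not all coefficients can be complex numbers. -/
theorem exists_coeff_not_mem (ψ : K →+* LaurentSeries Λ)
    (hψ : ∀ r : ℂ, ψ (algebraMap ℂ K r) = algebraMap ℂ (LaurentSeries Λ) r)
    (f g : K) (htop : IntermediateField.adjoin ℂ {f, g} = ⊤)
    (n : ℕ) (hf : ψ f * TT Λ ^ n = 1) (k : ℕ) (B : PowerSeries Λ) (hg : ψ g * TT Λ ^ k = cc Λ B)
    (x0 x1 : K) (hx0 : x0 ≠ 0) (lam : Λ) (hlam : lam ∉ Set.range (algebraMap ℂ Λ))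
    (hx : ψ x1 = cc Λ (PowerSeries.C lam) * ψ x0) :
    ∃ j, PowerSeries.coeff j B ∉ Set.range (algebraMap ℂ Λ) := by
  by_contra hcon
  push Not at hcon
  obtain ⟨B', hB'⟩ := mem_range_of_coeff B hcon
  set ι : LaurentSeries ℂ →+* LaurentSeries Λ :=
    Theta (algebraMap ℂ Λ) 1 one_ne_zero with hι
  have hιc : ∀ A : PowerSeries ℂ, ι (cc ℂ A) = cc Λ (PowerSeries.map (algebraMap ℂ Λ) A) := by
    intro A
    rw [hι, Theta_cc]
    congr 1
    ext j
    rw [coeff_theta, one_pow, one_mul, PowerSeries.coeff_map]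
  have hιT : ι (TT ℂ) = TT Λ := by
    rw [hιc, PowerSeries.map_X]
  have hT : TT Λ ∈ ι.fieldRange := ⟨TT ℂ, hιT⟩
  have hM : ∀ r : ℂ, algebraMap ℂ (LaurentSeries Λ) r ∈ ι.fieldRange := by
    intro r
    refine ⟨cc ℂ (PowerSeries.C r), ?_⟩
    rw [hιc, PowerSeries.map_C, cc_C_algebraMap]
  have hTn : ∀ m : ℕ, TT Λ ^ m ≠ 0 := fun m => pow_ne_zero m TT_ne_zero
  have hfm : ψ f ∈ ι.fieldRange := by
    rw [eq_div_of_mul_eq (hTn n) hf]
    exact div_mem (one_mem _) (pow_mem hT n)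
  have hgm : ψ g ∈ ι.fieldRange := by
    rw [eq_div_of_mul_eq (hTn k) hg]
    refine div_mem ⟨cc ℂ B', ?_⟩ (pow_mem hT k)
    rw [hιc, hB']
  have hmem := mem_of_top ψ hψ ι.fieldRange hM f g htop hfm hgm (x1 / x0)
  have hψx0 : ψ x0 ≠ 0 := by
    rw [Ne, map_eq_zero]; exact hx0
  rw [map_div₀, hx, mul_div_assoc, div_self hψx0, mul_one] at hmem
  obtain ⟨a, ha⟩ := hmem
  obtain ⟨l, A, hA⟩ := exists_pow_mul_cc a
  have h1 := congrArg ι hA
  rw [map_mul, map_pow, hιT, hιc, ha] at h1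
  have h2 : PowerSeries.C lam * PowerSeries.X ^ l = PowerSeries.map (algebraMap ℂ Λ) A := by
    apply cc_injective
    rw [map_mul, map_pow, ← h1]
  have h3 := congrArg (PowerSeries.coeff l) h2
  rw [PowerSeries.coeff_C_mul, PowerSeries.coeff_X_pow_self, mul_one, PowerSeries.coeff_map] at h3
  exact hlam ⟨_, h3.symm⟩

theorem mem_range_of_isAlgebraic (x : Λ) (hx : IsAlgebraic ℂ x) :
    x ∈ Set.range (algebraMap ℂ Λ) := by
  have h1 : IsIntegral ℂ x := hx.isIntegral
  have h2 : (minpoly ℂ x).degree = 1 :=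
    IsAlgClosed.degree_eq_one_of_irreducible ℂ (minpoly.irreducible h1)
  obtain ⟨c, hc⟩ := minpoly.mem_range_of_degree_eq_one ℂ x h2
  exact ⟨c, hc⟩

theorem cc_poly_mem (M : IntermediateField ℂ (LaurentSeries Λ)) (hT : TT Λ ∈ M) (q : Λ[X])
    (hq : ∀ i, q.coeff i ∈ Set.range (algebraMap ℂ Λ)) :
    cc Λ (q : PowerSeries Λ) ∈ M := by
  obtain ⟨q', rfl⟩ : ∃ q' : ℂ[X], q'.map (algebraMap ℂ Λ) = q := by
    have := (Polynomial.lifts_iff_coeff_lifts (f := algebraMap ℂ Λ) q).mpr hq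
    exact (Polynomial.mem_lifts q).mp this
  clear hq
  induction q' using Polynomial.induction_on' with
  | add p q hp hq =>
    rw [Polynomial.map_add, Polynomial.coe_add, map_add]
    exact add_mem hp hq
  | monomial n a =>
    rw [Polynomial.map_monomial, ← C_mul_X_pow_eq_monomial, Polynomial.coe_mul,
      Polynomial.coe_pow, Polynomial.coe_C, Polynomial.coe_X, map_mul, map_pow, cc_C_algebraMap]
    exact mul_mem (M.algebraMap_mem a) (pow_mem hT n)

/-- Second case: the residue field is `ℂ(ξ)`. -/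
theorem exists_xi (ψ : K →+* LaurentSeries Λ)
    (hψ : ∀ r : ℂ, ψ (algebraMap ℂ K r) = algebraMap ℂ (LaurentSeries Λ) r)
    (f g : K) (htop : IntermediateField.adjoin ℂ {f, g} = ⊤)
    (n : ℕ) (hf : ψ f * TT Λ ^ n = 1) (k : ℕ) (B : PowerSeries Λ) (hg : ψ g * TT Λ ^ k = cc Λ B)
    (x0 x1 : K) (hx0 : x0 ≠ 0) (lam : Λ) (hlam : lam ∉ Set.range (algebraMap ℂ Λ))
    (hx : ψ x1 = cc Λ (PowerSeries.C lam) * ψ x0)
    (y : PowerSeries Λ) (hy : TT Λ * ψ x0 = cc Λ y) :
    ∃ j, Transcendental ℂ (PowerSeries.coeff j B) ∧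
      lam ∈ IntermediateField.adjoin ℂ {PowerSeries.coeff j B} ∧
      PowerSeries.constantCoeff y ∈ IntermediateField.adjoin ℂ {PowerSeries.coeff j B} := by
  classical
  have hex := exists_coeff_not_mem ψ hψ f g htop n hf k B hg x0 x1 hx0 lam hlam hx
  set j := Nat.find hex with hj
  have hjn : PowerSeries.coeff j B ∉ Set.range (algebraMap ℂ Λ) := Nat.find_spec hex
  have hjlt : ∀ i < j, PowerSeries.coeff i B ∈ Set.range (algebraMap ℂ Λ) := by
    intro i hi
    have := Nat.find_min hex hi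
    push Not at this
    exact this
  have htr : Transcendental ℂ (PowerSeries.coeff j B) := by
    intro halg
    apply hjn
    exact mem_range_of_isAlgebraic _ halg
  set g' : PowerSeries Λ := PowerSeries.mk (fun i => PowerSeries.coeff (i + j) B) with hg'
  have hg'0 : PowerSeries.constantCoeff g' = PowerSeries.coeff j B := by
    rw [← PowerSeries.coeff_zero_eq_constantCoeff_apply, hg', PowerSeries.coeff_mk, zero_add]
  have hBdec : B = PowerSeries.X ^ j * g' + ((PowerSeries.trunc j B : Λ[X]) : PowerSeries Λ) :=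
    PowerSeries.eq_X_pow_mul_shift_add_trunc j B
  set M : IntermediateField ℂ (LaurentSeries Λ) := IntermediateField.adjoin ℂ {TT Λ, cc Λ g'}
    with hM
  have hTM : TT Λ ∈ M := IntermediateField.subset_adjoin ℂ _ (Or.inl rfl)
  have hgM : cc Λ g' ∈ M := IntermediateField.subset_adjoin ℂ _ (Or.inr rfl)
  have hMc : ∀ r : ℂ, algebraMap ℂ (LaurentSeries Λ) r ∈ M.toSubfield := fun r =>
    M.algebraMap_mem r
  have hTn : ∀ m : ℕ, TT Λ ^ m ≠ 0 := fun m => pow_ne_zero m TT_ne_zero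
  have hfm : ψ f ∈ M := by
    rw [eq_div_of_mul_eq (hTn n) hf]
    exact div_mem (one_mem _) (pow_mem hTM n)
  have htrunc : cc Λ ((PowerSeries.trunc j B : Λ[X]) : PowerSeries Λ) ∈ M := by
    apply cc_poly_mem M hTM
    intro i
    rw [PowerSeries.coeff_trunc]
    split_ifs with h
    · exact hjlt i h
    · exact ⟨0, map_zero _⟩
  have hgm : ψ g ∈ M := by
    rw [eq_div_of_mul_eq (hTn k) hg]
    refine div_mem ?_ (pow_mem hTM k)
    rw [hBdec, map_add, map_mul, map_pow]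
    exact add_mem (mul_mem (pow_mem hTM j) hgM) htrunc
  have hall := mem_of_top ψ hψ M.toSubfield hMc f g htop hfm hgm
  have hψx0 : ψ x0 ≠ 0 := by
    rw [Ne, map_eq_zero]; exact hx0
  refine ⟨j, htr, ?_, ?_⟩
  · have h1 : cc Λ (PowerSeries.C lam) ∈ M := by
      have := hall (x1 / x0)
      rw [map_div₀, hx, mul_div_assoc, div_self hψx0, mul_one] at this
      exact this
    have h2 := constantCoeff_mem_adjoin g' (by rw [hg'0]; exact htr) (PowerSeries.C lam) h1
    rw [hg'0, PowerSeries.constantCoeff_C] at h2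
    exact h2
  · have h1 : cc Λ y ∈ M := by
      rw [← hy]
      exact mul_mem hTM (hall x0)
    have h2 := constantCoeff_mem_adjoin g' (by rw [hg'0]; exact htr) y h1
    rw [hg'0] at h2
    exact h2

end

end Pool.Agent.Lib.MP_1fa985_ag
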