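import Mathlib
import Pool.Agent.Lib.MP_1fa985_ag.Main

set_option autoImplicit false

namespace Pool.Agent.Lib.MP_1fa985_ag

open Polynomial

section

variable {Λ : Type*} [Field Λ] [Algebra ℂ Λ]

theorem exists_coprime_repr (ξ : Λ) (hξ : Transcendental ℂ ξ) (x : Λ)
    (hx : x ∈ IntermediateField.adjoin ℂ {ξ}) :
    ∃ P R : ℂ[X], IsCoprime P R ∧ R ≠ 0 ∧ x * aeval ξ R = aeval ξ P := by
  rw [IntermediateField.mem_adjoin_simple_iff] at hx
  obtain ⟨r, s, hrs⟩ := hx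
  have hinj : ∀ q : ℂ[X], q ≠ 0 → aeval ξ q ≠ 0 := fun q hq hq' =>
    hq ((transcendental_iff.mp hξ) q hq')
  by_cases hs : s = 0
  · refine ⟨0, 1, isCoprime_zero_left.mpr isUnit_one, one_ne_zero, ?_⟩
    rw [hrs, hs]; simp
  · set d := EuclideanDomain.gcd r s with hd
    have hd0 : d ≠ 0 := by
      intro h
      exact hs (EuclideanDomain.gcd_eq_zero_iff.mp h).2
    obtain ⟨r', hr'⟩ := EuclideanDomain.gcd_dvd_left r s
    obtain ⟨s', hs'⟩ := EuclideanDomain.gcd_dvd_right r s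
    rw [← hd] at hr' hs'
    have hs'0 : s' ≠ 0 := by
      rintro rfl
      rw [mul_zero] at hs'
      exact hs hs'
    refine ⟨r', s', ?_, hs'0, ?_⟩
    · have hb := EuclideanDomain.gcd_eq_gcd_ab r s
      rw [← hd] at hb
      refine ⟨EuclideanDomain.gcdA r s, EuclideanDomain.gcdB r s, ?_⟩
      apply mul_left_cancel₀ hd0
      calc d * (EuclideanDomain.gcdA r s * r' + EuclideanDomain.gcdB r s * s')
          = (d * r') * EuclideanDomain.gcdA r s + (d * s') * EuclideanDomain.gcdB r s := by ring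
        _ = d * 1 := by rw [← hr', ← hs', ← hb, mul_one]
    · rw [hrs, hr', hs', map_mul, map_mul]
      have h1 := hinj d hd0
      have h2 := hinj s' hs'0
      field_simp

end

theorem lam_not_mem {Λ : Type*} [Field Λ] [Algebra ℂ Λ] [Algebra (RatFunc ℂ) Λ]
    [IsScalarTower ℂ (RatFunc ℂ) Λ] :
    algebraMap (RatFunc ℂ) Λ RatFunc.X ∉ Set.range (algebraMap ℂ Λ) := by
  rintro ⟨r, hr⟩
  rw [IsScalarTower.algebraMap_apply ℂ (RatFunc ℂ) Λ] at hr
  have h1 : algebraMap ℂ (RatFunc ℂ) r = RatFunc.X := (algebraMap (RatFunc ℂ) Λ).injective hr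
  rw [IsScalarTower.algebraMap_apply ℂ ℂ[X] (RatFunc ℂ), ← RatFunc.algebraMap_X] at h1
  have h2 : algebraMap ℂ ℂ[X] r = X := IsFractionRing.injective ℂ[X] (RatFunc ℂ) h1
  have h3 := congrArg (fun q => q.coeff 1) h2
  simp [coeff_C] at h3

theorem eval₂_lam {Λ : Type*} [Field Λ] [Algebra ℂ Λ] [Algebra (RatFunc ℂ) Λ]
    [IsScalarTower ℂ (RatFunc ℂ) Λ] (ξ : Λ) (q : ℂ[X]) :
    eval₂ (((aeval ξ : ℂ[X] →ₐ[ℂ] Λ) : ℂ[X] →+* Λ).comp C)
      (algebraMap (RatFunc ℂ) Λ RatFunc.X) q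
      = algebraMap (RatFunc ℂ) Λ (algebraMap ℂ[X] (RatFunc ℂ) q) := by
  have h1 : ((aeval ξ : ℂ[X] →ₐ[ℂ] Λ) : ℂ[X] →+* Λ).comp C = algebraMap ℂ Λ := by
    ext c; simp
  rw [h1, ← aeval_def]
  rw [← RatFunc.algebraMap_X, Polynomial.aeval_algebraMap_apply,
    Polynomial.aeval_algebraMap_apply, aeval_X_left_apply]

/-- **A field generator has at most two points at infinity** (in the form needed here):
if the leading form of `f`, dehomogenized at `x₀ = 1`, vanishes at `0`, `1` and `-1`, then `f` is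
not a field generator. -/
theorem not_fieldGenerator
    {K : Type*} [Field K] [Algebra (MvPolynomial (Fin 2) ℂ) K]
    [IsFractionRing (MvPolynomial (Fin 2) ℂ) K] [Algebra ℂ K]
    [IsScalarTower ℂ (MvPolynomial (Fin 2) ℂ) K]
    (f : MvPolynomial (Fin 2) ℂ) (hf : f ≠ 0)
    (r0 : (eta f).leadingCoeff.eval 0 = 0) (r1 : (eta f).leadingCoeff.eval 1 = 0)
    (r2 : (eta f).leadingCoeff.eval (-1) = 0) (g : K) :
    IntermediateField.adjoin ℂ {algebraMap (MvPolynomial (Fin 2) ℂ) K f, g} ≠ ⊤ := by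
  intro htop
  let Λ : Type := AlgebraicClosure (RatFunc ℂ)
  have hH0 : eta f ≠ 0 := by
    intro h
    exact hf (eta_injective (by rw [map_zero]; exact h))
  have hG0 : (eta f).leadingCoeff ≠ 0 := leadingCoeff_ne_zero.mpr hH0
  have hGn : (eta f).leadingCoeff.natDegree ≤ (eta f).natDegree :=
    natDegree_coeff_eta f (eta f).natDegree
  have hn : 0 < (eta f).natDegree := by
    by_contra hcon
    have h0 : (eta f).natDegree = 0 := by omega
    rw [h0] at hGn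
    have h1 : (eta f).leadingCoeff.natDegree = 0 := by omega
    rw [natDegree_eq_zero] at h1
    obtain ⟨c, hc⟩ := h1
    rw [← hc, eval_C] at r0
    apply hG0
    rw [← hc, r0, C_0]
  obtain ⟨w, hw⟩ := IsAlgClosed.exists_pow_nat_eq
    (algebraMap (RatFunc ℂ) Λ (algebraMap ℂ[X] (RatFunc ℂ) (eta f).leadingCoeff)) hn
  obtain ⟨ψ, hψ, hψf, ⟨y, hy0, hy⟩, hx1, hψg⟩ := exists_psi (K := K) f hf hn w hw
  obtain ⟨k, A, B, hB, hcoef⟩ := hψg g
  have hx0 : algebraMap (MvPolynomial (Fin 2) ℂ) K (MvPolynomial.X 0) ≠ 0 := by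
    rw [Ne, map_eq_zero_iff _ (IsFractionRing.injective (MvPolynomial (Fin 2) ℂ) K)]
    exact MvPolynomial.X_ne_zero 0
  obtain ⟨j, htr, hlamξ, hwξ⟩ := exists_xi ψ hψ _ g htop _ hψf k B hB _ _ hx0 _ lam_not_mem hx1 y hy
  set ξ := PowerSeries.coeff j B with hξ
  rw [hy0] at hwξ
  have hw0 : w ≠ 0 := by
    rintro rfl
    rw [zero_pow hn.ne'] at hw
    have h1 := (map_eq_zero _).mp hw.symm
    rw [map_eq_zero_iff _ (IsFractionRing.injective ℂ[X] (RatFunc ℂ))] at h1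
    exact hG0 h1
  have hwξ' : w ∈ IntermediateField.adjoin ℂ {ξ} := by
    have := inv_mem hwξ
    rwa [inv_inv] at this
  obtain ⟨P, R, hPR, hR0, hPR'⟩ := exists_coprime_repr ξ htr _ hlamξ
  obtain ⟨U, V, -, hV0, hUV⟩ := exists_coprime_repr ξ htr _ hwξ'
  have hinj : Function.Injective ((aeval ξ : ℂ[X] →ₐ[ℂ] Λ) : ℂ[X] →+* Λ) := by
    have := transcendental_iff_injective.mp htr
    exact this
  set a : RatFunc ℂ := algebraMap ℂ[X] (RatFunc ℂ) (eta f).leadingCoeff with ha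
  have ha0 : a ≠ 0 := by
    rw [ha, Ne, map_eq_zero_iff _ (IsFractionRing.injective ℂ[X] (RatFunc ℂ))]
    exact hG0
  set b : RatFunc ℂ := a ^ j * (PowerSeries.coeff j A) ^ (eta f).natDegree / a ^ k with hb
  have hξn : ξ ^ (eta f).natDegree = algebraMap (RatFunc ℂ) Λ b := by
    have h1 := congrArg (fun t => t ^ (eta f).natDegree) (hcoef j)
    simp only [mul_pow, ← pow_mul] at h1
    rw [mul_comm k, mul_comm j, pow_mul, pow_mul, hw] at h1
    rw [hb, map_div₀, map_mul, map_pow, map_pow, map_pow]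
    rw [eq_div_iff (pow_ne_zero k (by rw [Ne, map_eq_zero]; exact ha0))]
    exact h1
  refine kummer_contra ((aeval ξ : ℂ[X] →ₐ[ℂ] Λ) : ℂ[X] →+* Λ) hinj P R hPR hR0 ?_
    (algebraMap (RatFunc ℂ) Λ RatFunc.X) w hPR' U V hV0 hUV (eta f).natDegree
    b.num b.denom (RatFunc.isCoprime_num_denom b) ?_ (eta f).leadingCoeff hG0 hGn r0 r1 r2 ?_
  · intro c hc
    apply lam_not_mem (Λ := Λ)
    refine ⟨c, ?_⟩
    rw [hc] at hPR'
    have h1 : aeval ξ R ≠ 0 := by
      intro h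
      exact hR0 (hinj (by rw [map_zero]; exact h))
    apply mul_right_cancel₀ h1
    rw [hPR', map_mul, aeval_C]
  · rw [eval₂_lam, eval₂_lam]
    have h1 : ((aeval ξ : ℂ[X] →ₐ[ℂ] Λ) : ℂ[X] →+* Λ) X = ξ := by simp
    rw [h1, hξn, ← map_mul]
    congr 1
    have h2 := RatFunc.num_div_denom b
    have h3 : algebraMap ℂ[X] (RatFunc ℂ) b.denom ≠ 0 := by
      rw [Ne, map_eq_zero_iff _ (IsFractionRing.injective ℂ[X] (RatFunc ℂ))]
      exact RatFunc.denom_ne_zero b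
    exact (div_eq_iff h3).mp h2 |>.symm
  · rw [eval₂_lam]
    exact hw

end Pool.Agent.Lib.MP_1fa985_ag
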