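import Mathlib
import Pool.Agent.Lib.MP_1fa985_ag.Final
import Pool.Agent.Lib.MP_1fa985_ag.Curve

set_option autoImplicit false

namespace Pool.Agent.Lib.MP_1fa985_ag

open Polynomial

theorem not_fieldGenerator_mul_ne (q : MvPolynomial (Fin 2) ℂ) (hq : q ≠ 0)
    (g : FractionRing (MvPolynomial (Fin 2) ℂ)) :
    IntermediateField.adjoin ℂ
      ({algebraMap (MvPolynomial (Fin 2) ℂ) (FractionRing (MvPolynomial (Fin 2) ℂ)) (pp * q), g} :
        Set (FractionRing (MvPolynomial (Fin 2) ℂ))) ≠ ⊤ := by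
  have hlc : (eta (pp * q)).leadingCoeff = (X ^ 2 - X ^ 4) * (eta q).leadingCoeff := by
    rw [map_mul, leadingCoeff_mul, leadingCoeff_eta_pp]
  apply not_fieldGenerator (pp * q) (mul_ne_zero pp_ne_zero hq)
  · rw [hlc]; simp
  · rw [hlc]; simp
  · rw [hlc]; simp; left; norm_num

theorem not_fieldGenerator_mul (q : MvPolynomial (Fin 2) ℂ)
    (g : FractionRing (MvPolynomial (Fin 2) ℂ)) :
    IntermediateField.adjoin ℂ
      ({algebraMap (MvPolynomial (Fin 2) ℂ) (FractionRing (MvPolynomial (Fin 2) ℂ)) (pp * q), g} :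
        Set (FractionRing (MvPolynomial (Fin 2) ℂ))) ≠ ⊤ := by
  by_cases hq : q = 0
  · intro htop
    apply not_fieldGenerator_mul_ne 1 one_ne_zero g
    rw [eq_top_iff, ← htop, IntermediateField.adjoin_le_iff]
    rintro y (rfl | rfl)
    · rw [hq, mul_zero, map_zero]
      exact zero_mem _
    · exact IntermediateField.subset_adjoin ℂ _ (Or.inr rfl)
  · exact not_fieldGenerator_mul_ne q hq g

end Pool.Agent.Lib.MP_1fa985_ag
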