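import Mathlib
import Pool.Agent.Lib.MP_1fa985_ag.Curve

set_option autoImplicit false

namespace Pool.Agent.Lib.MP_1fa985_ag

open Polynomial

theorem prime_pp : (Ideal.span {pp} : Ideal (MvPolynomial (Fin 2) ℂ)).IsPrime := by
  rw [Ideal.span_singleton_prime pp_ne_zero]
  exact irreducible_pp.prime

theorem eval_eq_zero_of_mem (v : Fin 2 → ℂ) (hv : MvPolynomial.eval v pp = 0)
    (q : MvPolynomial (Fin 2) ℂ) (hq : q ∈ Ideal.span {pp}) : MvPolynomial.eval v q = 0 := by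
  rw [Ideal.mem_span_singleton] at hq
  obtain ⟨r, rfl⟩ := hq
  rw [map_mul, hv, zero_mul]

theorem point1 : MvPolynomial.eval ![1, 1] pp = 0 := by
  simp [pp]

theorem point2 : MvPolynomial.eval ![-11/3, -1/3] pp = 0 := by
  simp [pp]
  norm_num

theorem exists_liftX {L : Type*} [Field L] [Algebra ℂ L] (w : L) (hw : Transcendental ℂ w) :
    ∃ Φ : RatFunc ℂ →ₐ[ℂ] L, Φ RatFunc.X = w := by
  have hinj : Function.Injective (aeval w : ℂ[X] →ₐ[ℂ] L) := transcendental_iff_injective.mp hw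
  refine ⟨IsFractionRing.liftAlgHom hinj, ?_⟩
  rw [← RatFunc.algebraMap_X, IsFractionRing.liftAlgHom_apply]
  rw [IsFractionRing.lift_algebraMap]
  simp

theorem rational_abstract {L : Type*} [Field L] [Algebra ℂ L]
    (ι : MvPolynomial (Fin 2) ℂ →ₐ[ℂ] L) (hι0 : ∀ q, ι q = 0 → q ∈ Ideal.span {pp})
    (hιpp : ι pp = 0) (hdiv : ∀ z : L, ∃ a b, z = ι a / ι b) :
    Nonempty (L ≃ₐ[ℂ] RatFunc ℂ) := by
  obtain ⟨x, hx⟩ : ∃ x, x = ι (MvPolynomial.X 1) := ⟨_, rfl⟩
  obtain ⟨y, hy⟩ : ∃ y, y = ι (MvPolynomial.X 0) := ⟨_, rfl⟩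
  have hrel : (y * x - 1) ^ 2 - x ^ 4 + x ^ 3 = 0 := by
    unfold pp at hιpp
    rw [map_add, map_sub, map_pow, map_sub, map_mul, map_pow, map_pow, map_one, ← hx, ← hy] at hιpp
    exact hιpp
  have hxc : ∀ c : ℂ, x ≠ algebraMap ℂ L c := by
    intro c hc
    have h1 : ι (MvPolynomial.X 1 - MvPolynomial.C c) = 0 := by
      rw [map_sub, ← MvPolynomial.algebraMap_eq, AlgHom.commutes, ← hx, hc, sub_self]
    have h2 := hι0 _ h1
    have e1 := eval_eq_zero_of_mem _ point1 _ h2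
    have e2 := eval_eq_zero_of_mem _ point2 _ h2
    simp at e1 e2
    rw [← sub_eq_zero.mp e1] at e2
    norm_num at e2
  have hx0 : x ≠ 0 := by
    have := hxc 0
    rwa [map_zero] at this
  obtain ⟨w, hw⟩ : ∃ w, w = (y * x - 1) / x ^ 2 := ⟨_, rfl⟩
  have hw2 : (1 - w ^ 2) * x = 1 := by
    rw [hw]
    field_simp
    linear_combination -hrel
  have hyw : y = (x ^ 2 * w + 1) / x := by
    rw [hw]
    field_simp
    ring
  have htr : Transcendental ℂ w := by
    intro halg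
    have h1 : IsIntegral ℂ w := halg.isIntegral
    have h2 : (minpoly ℂ w).degree = 1 :=
      IsAlgClosed.degree_eq_one_of_irreducible ℂ (minpoly.irreducible h1)
    obtain ⟨c, hc⟩ := minpoly.mem_range_of_degree_eq_one ℂ w h2
    apply hxc ((1 - c ^ 2)⁻¹)
    have h3 : algebraMap ℂ L (1 - c ^ 2) = 1 - w ^ 2 := by
      rw [map_sub, map_one, map_pow, hc]
    rw [map_inv₀, h3]
    exact eq_inv_of_mul_eq_one_right hw2
  obtain ⟨Φ, hΦX⟩ := exists_liftX w htr
  have hsurj : Function.Surjective Φ := by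
    have hwr : w ∈ Φ.fieldRange := ⟨_, hΦX⟩
    have hxr : x ∈ Φ.fieldRange := by
      have : x = (1 - w ^ 2)⁻¹ := eq_inv_of_mul_eq_one_right hw2
      rw [this]
      exact inv_mem (sub_mem (one_mem _) (pow_mem hwr 2))
    have hyr : y ∈ Φ.fieldRange := by
      rw [hyw]
      exact div_mem (add_mem (mul_mem (pow_mem hxr 2) hwr) (one_mem _)) hxr
    have hall : ∀ q : MvPolynomial (Fin 2) ℂ, ι q ∈ Φ.fieldRange := by
      intro q
      induction q using MvPolynomial.induction_on with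
      | C a =>
        rw [← MvPolynomial.algebraMap_eq, AlgHom.commutes]
        exact Φ.fieldRange.algebraMap_mem a
      | add p q hp hq => rw [map_add]; exact add_mem hp hq
      | mul_X p i hp =>
        rw [map_mul]
        apply mul_mem hp
        fin_cases i
        · rw [hy] at hyr; exact hyr
        · rw [hx] at hxr; exact hxr
    intro z
    obtain ⟨a, b, rfl⟩ := hdiv z
    exact div_mem (hall a) (hall b)
  exact ⟨(AlgEquiv.ofBijective Φ ⟨Φ.toRingHom.injective, hsurj⟩).symm⟩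

theorem rational_pp :
    Nonempty (FractionRing (MvPolynomial (Fin 2) ℂ ⧸ Ideal.span {pp}) ≃ₐ[ℂ] RatFunc ℂ) := by
  have := prime_pp
  refine rational_abstract
    ((IsScalarTower.toAlgHom ℂ (MvPolynomial (Fin 2) ℂ ⧸ Ideal.span {pp})
      (FractionRing (MvPolynomial (Fin 2) ℂ ⧸ Ideal.span {pp}))).comp
      (Ideal.Quotient.mkₐ ℂ (Ideal.span {pp}))) ?_ ?_ ?_
  · intro q hq
    have h1 : Ideal.Quotient.mk (Ideal.span {pp}) q = 0 := by
      apply IsFractionRing.injective (MvPolynomial (Fin 2) ℂ ⧸ Ideal.span {pp})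
        (FractionRing (MvPolynomial (Fin 2) ℂ ⧸ Ideal.span {pp}))
      rw [map_zero]
      exact hq
    exact Ideal.Quotient.eq_zero_iff_mem.mp h1
  · have h1 : Ideal.Quotient.mk (Ideal.span {pp}) pp = 0 :=
      Ideal.Quotient.eq_zero_iff_mem.mpr (Ideal.subset_span rfl)
    show algebraMap (MvPolynomial (Fin 2) ℂ ⧸ Ideal.span {pp})
        (FractionRing (MvPolynomial (Fin 2) ℂ ⧸ Ideal.span {pp}))
        (Ideal.Quotient.mk (Ideal.span {pp}) pp) = 0
    rw [h1, map_zero]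
  · intro z
    obtain ⟨a, b, hb, rfl⟩ :=
      IsFractionRing.div_surjective (A := MvPolynomial (Fin 2) ℂ ⧸ Ideal.span {pp}) z
    obtain ⟨a', rfl⟩ := Ideal.Quotient.mk_surjective a
    obtain ⟨b', rfl⟩ := Ideal.Quotient.mk_surjective b
    exact ⟨a', b', rfl⟩

end Pool.Agent.Lib.MP_1fa985_ag
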